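import Pool.Agent.H57.RC.Quant
import Pool.Agent.H40.NQFin

/-!
# The comparison principle when the relative capacity vanishes

MP_fb6cbc_an. The pointwise part follows `Pool/Agent/H40/NQFin.lean` (helper40).
-/

set_option autoImplicit false

open MeasureTheory Filter Topology Metric
open scoped ContDiff RealInnerProductSpace
open Pool.Agent.H40.NP

namespace Pool.Agent.H57.RC

variable {n : ℕ} {p : ℝ} {w : E n → ℝ} {A : E n → E n → E n} {D Ω : Set (E n)}

theorem compl_nonempty (hn : 1 ≤ n) (hb : Bornology.IsBounded Ω) : Ωᶜ.Nonempty := by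
  by_contra hcon
  rw [Set.not_nonempty_iff_eq_empty, Set.compl_empty_iff] at hcon
  rw [hcon] at hb
  have : Nonempty (Fin n) := ⟨⟨0, hn⟩⟩
  have : Nontrivial (E n) := inferInstance
  exact NormedSpace.unbounded_univ ℝ (E n) hb

private theorem ae_rel (hn : 1 ≤ n) (hp : 1 < p) (hw : PAdmissible p w) (hA : AOperator p w A)
    (hΩ : IsOpen Ω) (hb : Bornology.IsBounded Ω) {S : Set (E n)}
    (hcap : relCap p (wMeasure w) Ω S = 0) {u v : E n → ℝ} {K : ℝ}
    (hu : IsSuperharmonic p w A Ω u) (hv : IsSubharmonic p w A Ω v)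
    (huK : ∀ x ∈ Ω, |u x| ≤ K) (hvK : ∀ x ∈ Ω, |v x| ≤ K)
    (hbd : ∀ x ∈ frontier Ω \ S, ∀ ε' : ℝ, 0 < ε' → ∀ᶠ y in 𝓝[Ω] x, v y < u y + ε') :
    wMeasure w {x | x ∈ Ω ∧ u x < v x} = 0 := by
  obtain ⟨R, hR⟩ := hb.subset_ball 0
  obtain ⟨R', hR'⟩ : ∃ R', R' = max R 1 := ⟨_, rfl⟩
  have hR0 : 0 < R' := by rw [hR']; exact lt_max_of_lt_right one_pos
  have hΩR : Ω ⊆ ball 0 R' := hR.trans (ball_subset_ball (by rw [hR']; exact le_max_left _ _))
  have hz : ∀ k : ℕ, wMeasure w {x | x ∈ Ω ∧ u x + 1 / ((k:ℝ) + 1) < v x} = 0 := by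
    intro k
    obtain ⟨C, _, hC⟩ := quant (M := K) hn hp hw hA hR0 (show (0:ℝ) < 1 / ((k:ℝ) + 1) by positivity)
    have h1 := hC Ω S u v hΩ hΩR hu hv huK hvK hbd
    rw [hcap, mul_zero] at h1
    exact le_antisymm h1 zero_le
  refine measure_mono_null ?_ (measure_iUnion_null hz)
  rintro x ⟨hx1, hx2⟩
  obtain ⟨k, hk⟩ := exists_nat_one_div_lt (sub_pos.2 hx2)
  exact Set.mem_iUnion.2 ⟨k, hx1, by linarith⟩

/-- The comparison principle for real-valued functions when the exceptional set has zero relative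
capacity. -/
theorem comp_rel (hn : 1 ≤ n) (hp : 1 < p) (hw : PAdmissible p w) (hA : AOperator p w A)
    (hΩ : IsOpen Ω) (hb : Bornology.IsBounded Ω) {S : Set (E n)}
    (hcap : relCap p (wMeasure w) Ω S = 0) {u v : E n → ℝ} {K : ℝ}
    (hu : IsSuperharmonic p w A Ω u) (hv : IsSubharmonic p w A Ω v)
    (huK : ∀ x ∈ Ω, |u x| ≤ K) (hvK : ∀ x ∈ Ω, |v x| ≤ K)
    (hbd : ∀ x ∈ frontier Ω \ S, ∀ ε' : ℝ, 0 < ε' → ∀ᶠ y in 𝓝[Ω] x, v y < u y + ε') :
    ∀ x ∈ Ω, v x ≤ u x := by
  have hloc := locFinite hw.locallyIntegrable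
  have hne := compl_nonempty hn hb
  intro x hx
  have hK0 : 0 ≤ K := (abs_nonneg _).trans (huK x hx)
  have hnull := ae_rel hn hp hw hA hΩ hb hcap hu hv huK hvK hbd
  by_contra hcon
  push Not at hcon
  obtain ⟨ε, hε⟩ : ∃ ε, ε = (v x - u x) / 3 := ⟨_, rfl⟩
  have hε0 : 0 < ε := by rw [hε]; linarith
  obtain ⟨r1, hr1, h1⟩ := dens_super hp hw hA hΩ hb hne hK0 hu huK hx hε0
    (show (0:ℝ) < 1 / 3 by norm_num)
  obtain ⟨r2, hr2, h2⟩ := dens_super hp hw hA hΩ hb hne hK0 (hv.neg hA)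
    (fun y hy => by rw [abs_neg]; exact hvK y hy) hx hε0 (show (0:ℝ) < 1 / 3 by norm_num)
  obtain ⟨r3, hr3, hr3b⟩ := Metric.isOpen_iff.1 hΩ x hx
  obtain ⟨r, hr⟩ : ∃ r, r = min r1 (min r2 r3) := ⟨_, rfl⟩
  have hrpos : 0 < r := by rw [hr]; exact lt_min hr1 (lt_min hr2 hr3)
  have e1 := h1 r hrpos (by rw [hr]; exact min_le_left _ _)
  have e2 := h2 r hrpos (by rw [hr]; exact (min_le_right _ _).trans (min_le_left _ _))
  have hrr3 : r ≤ r3 := by rw [hr]; exact (min_le_right _ _).trans (min_le_right _ _)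
  have hsub : ball x r ⊆ (({y | u x + ε < u y} ∩ ball x r) ∪
      ({y | -v x + ε < -v y} ∩ ball x r)) ∪ {y | y ∈ Ω ∧ u y < v y} := by
    intro y hy
    have hyΩ : y ∈ Ω := hr3b (ball_subset_ball hrr3 hy)
    by_cases c1 : u x + ε < u y
    · exact Or.inl (Or.inl ⟨c1, hy⟩)
    by_cases c2 : -v x + ε < -v y
    · exact Or.inl (Or.inr ⟨c2, hy⟩)
    · refine Or.inr ⟨hyΩ, ?_⟩
      push Not at c1 c2
      linarith
  have f1 : (wMeasure w) ({y | u x + ε < u y} ∩ ball x r) ≠ ⊤ :=
    ne_top_of_le_ne_top measure_ball_lt_top.ne (measure_mono Set.inter_subset_right)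
  have f2 : (wMeasure w) ({y | -v x + ε < -v y} ∩ ball x r) ≠ ⊤ :=
    ne_top_of_le_ne_top measure_ball_lt_top.ne (measure_mono Set.inter_subset_right)
  have h3 := measure_mono (μ := wMeasure w) hsub
  have h4 := h3.trans ((measure_union_le _ _).trans (add_le_add_left (measure_union_le _ _) _))
  rw [hnull, add_zero] at h4
  have h5 := ENNReal.toReal_mono (ENNReal.add_ne_top.2 ⟨f1, f2⟩) h4
  rw [ENNReal.toReal_add f1 f2] at h5
  have hm := ball_pos hw x hrpos
  unfold Measure.real at e1 e2 hm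
  linarith

/-- The relative capacity is at most the Sobolev capacity. -/
theorem relCap_le_cap (Ω S : Set (E n)) :
    relCap p (wMeasure w) Ω S ≤ cap p (wMeasure w) S := by
  refine le_sInf ?_
  rintro _ ⟨φ, Φ, hφ, ⟨W, hWo, hSW, hφ1⟩, rfl⟩
  have h1 : relCap p (wMeasure w) Ω S ≤
      ∫⁻ x in Ω, (ENNReal.ofReal (|φ x| ^ p) + ENNReal.ofReal (‖Φ x‖ ^ p)) ∂(wMeasure w) :=
    sInf_le ⟨φ, Φ, hφ.mono (Set.subset_univ Ω), ⟨W, hWo, hSW, fun x hx => hφ1 x hx.1⟩, rfl⟩
  exact h1.trans (setLIntegral_le_lintegral _ _)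

/-- The maximum principle for `𝒜`-harmonic functions which are continuous up to the boundary. -/
theorem harm_le (hp : 1 < p) (hw : PAdmissible p w) (hA : AOperator p w A) (hD : IsOpen D)
    (hDb : Bornology.IsBounded D) {h : E n → ℝ} (hc : ContinuousOn h (closure D))
    (hh : IsHarmonic p w A D h) {k : ℝ} (hk : ∀ x ∈ frontier D, h x ≤ k) : ∀ x ∈ D, h x ≤ k := by
  have hloc := locFinite hw.locallyIntegrable
  obtain ⟨hcont, H, hH, hint⟩ := hh
  have hsub : IsSubsolution p w A D h H := ⟨hH, fun φ h1 h2 h3 _ => (hint φ h1 h2 h3).le⟩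
  have hA0 : ∀ᵐ x, A x 0 = 0 := by
    obtain ⟨α, β, _, _, hb⟩ := hA.bounds
    filter_upwards [hb] with x hx
    have h1 := (hx 0).2
    rw [norm_zero, Real.zero_rpow (by linarith), mul_zero] at h1
    exact norm_le_zero_iff.1 h1
  have hsup : IsSupersolution p w A D (fun _ => k) (fun _ => 0) := by
    refine ⟨fun D' hD' => ?_, fun φ _ _ _ _ => ?_⟩
    · have hfin : IsFiniteMeasure ((wMeasure w).restrict D') := by
        constructor
        rw [Measure.restrict_apply_univ]
        exact (measure_mono subset_closure).trans_lt hD'.2.1.measure_lt_top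
      have hg : gradient (fun _ : E n => k) = fun _ => 0 := by
        funext x
        exact gradient_const k (x := x)
      refine ⟨memLp_const k, memLp_const 0, fun _ _ => k, fun _ => contDiffOn_const,
        fun _ => memLp_const k, fun _ => ?_, ?_, ?_⟩
      · rw [hg]
        exact memLp_const 0
      · have e : ∀ j : ℕ, nrm p (wMeasure w) D' (fun x => (fun _ : E n => k) x - k) = 0 := by
          intro j
          simp [nrm]
        simp [nrm]
      · change Tendsto (fun _ : ℕ => nrm p (wMeasure w) D' (fun x => gradient (fun _ : E n => k) x -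
          (0 : E n))) atTop (𝓝 0)
        rw [hg]
        simp [nrm]
    · rw [setIntegral_congr_ae₀ (g := fun _ => 0)]
      · simp
      · exact hD.measurableSet.nullMeasurableSet
      · filter_upwards [hA0] with x hx _
        rw [hx, inner_zero_left]
  obtain ⟨K, hK⟩ := (hDb.isCompact_closure).exists_bound_of_continuousOn hc
  have hcap : cap p (wMeasure w) (∅ : Set (E n)) = 0 := by
    apply le_antisymm _ zero_le
    have hg : gradient (fun _ : E n => (0:ℝ)) = fun _ => 0 := by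
      funext x
      exact gradient_const (0:ℝ) (x := x)
    refine sInf_le ⟨fun _ => 0, fun _ => 0, ?_, ⟨∅, isOpen_empty, le_rfl, by simp⟩, ?_⟩
    · refine ⟨MemLp.zero, MemLp.zero, fun _ _ => 0, fun _ => contDiffOn_const,
        fun _ => MemLp.zero, fun _ => ?_, ?_, ?_⟩
      · rw [hg]
        exact MemLp.zero
      · simp [nrm]
      · change Tendsto (fun _ : ℕ => nrm p (wMeasure w) Set.univ
          (fun x => gradient (fun _ : E n => (0:ℝ)) x - (0 : E n))) atTop (𝓝 0)
        rw [hg]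
        simp [nrm]
    · have hp0 : p ≠ 0 := by linarith
      simp [Real.zero_rpow hp0]
  have hnull := ae_le hp hw hA hD hDb hcap hsup hsub (K := max K |k|)
    (fun x _ => le_max_right _ _) (fun x hx => (hK x (subset_closure hx)).trans (le_max_left _ _))
    (by
      intro x hx
      have hne : (𝓝[D] x).NeBot := mem_closure_iff_nhdsWithin_neBot.1 hx.1.1
      have h1 : Tendsto h (𝓝[D] x) (𝓝 (h x)) :=
        (hc x hx.1.1).mono_left (nhdsWithin_mono x subset_closure)
      rw [h1.limsup_eq, liminf_const]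
      exact hk x hx.1)
  intro x hx
  by_contra hcon
  push Not at hcon
  have ho : IsOpen (D ∩ h ⁻¹' Set.Ioi k) := hcont.isOpen_inter_preimage hD isOpen_Ioi
  obtain ⟨r, hr, hrb⟩ := Metric.isOpen_iff.1 ho x ⟨hx, hcon⟩
  have hm := ball_pos hw x hr
  have h0 : wMeasure w (ball x r) = 0 := by
    refine measure_mono_null ?_ hnull
    intro y hy
    exact ⟨(hrb hy).1, (hrb hy).2⟩
  unfold Measure.real at hm
  rw [h0] at hm
  simp at hm

end Pool.Agent.H57.RC
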