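import Pool.Agent.H40.NQDefs

/-!
# Definitions for the comparison principle with an exceptional boundary set

MP_fb6cbc_an. The relative capacity, and super- and subharmonic functions with values in the
extended real numbers.
-/

set_option autoImplicit false

open MeasureTheory Filter Topology Metric
open Pool.Agent.H40.NP

namespace Pool.Agent.H57.RC

/-- The capacity of `S` relative to the open set `Ω`: the infimum of
`∫_Ω (|φ|^p + |∇φ|^p) dμ` over `φ ∈ H^{1,p}(Ω; μ)` with `φ = 1` on `W ∩ Ω` for an open set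
`W ⊇ S`. -/
noncomputable def relCap {n : ℕ} (p : ℝ) (μ : Measure (E n)) (Ω S : Set (E n)) : ENNReal :=
  sInf {c : ENNReal | ∃ (φ : E n → ℝ) (Φ : E n → E n), MemH p μ Ω φ Φ ∧
    (∃ W : Set (E n), IsOpen W ∧ S ⊆ W ∧ ∀ x ∈ W ∩ Ω, φ x = 1) ∧
    c = ∫⁻ x in Ω, (ENNReal.ofReal (|φ x| ^ p) + ENNReal.ofReal (‖Φ x‖ ^ p)) ∂μ}

/-- `𝒜`-superharmonic functions `u : Ω → (-∞, ∞]`: lower semicontinuous, not identically `∞` on
any component of `Ω`, and satisfying the comparison condition with respect to `𝒜`-harmonic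
functions on every `D ⋐ Ω`. -/
structure Superharmonic {n : ℕ} (p : ℝ) (w : E n → ℝ) (A : E n → E n → E n) (Ω : Set (E n))
    (u : E n → EReal) : Prop where
  ne_bot : ∀ x ∈ Ω, u x ≠ ⊥
  lsc : LowerSemicontinuousOn u Ω
  ne_top : ∀ x ∈ Ω, ∃ y ∈ connectedComponentIn Ω x, u y ≠ ⊤
  comparison : ∀ (D : Set (E n)) (h : E n → ℝ), CompInside D Ω → ContinuousOn h (closure D) →
    IsHarmonic p w A D h → (∀ x ∈ frontier D, (h x : EReal) ≤ u x) → ∀ x ∈ D, (h x : EReal) ≤ u x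

/-- `𝒜`-subharmonic functions `v : Ω → [-∞, ∞)`. -/
structure Subharmonic {n : ℕ} (p : ℝ) (w : E n → ℝ) (A : E n → E n → E n) (Ω : Set (E n))
    (v : E n → EReal) : Prop where
  ne_top : ∀ x ∈ Ω, v x ≠ ⊤
  usc : UpperSemicontinuousOn v Ω
  ne_bot : ∀ x ∈ Ω, ∃ y ∈ connectedComponentIn Ω x, v y ≠ ⊥
  comparison : ∀ (D : Set (E n)) (h : E n → ℝ), CompInside D Ω → ContinuousOn h (closure D) →
    IsHarmonic p w A D h → (∀ x ∈ frontier D, v x ≤ (h x : EReal)) → ∀ x ∈ D, v x ≤ (h x : EReal)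

end Pool.Agent.H57.RC
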