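import Pool.Agent.H57.RC.Comp

/-!
# Super- and subharmonic functions with values in the extended real numbers

MP_fb6cbc_an. Truncations, and the comparison principle under one-sided bounds.
-/

set_option autoImplicit false

open MeasureTheory Filter Topology Metric
open Pool.Agent.H40.NP

namespace Pool.Agent.H57.RC

variable {n : ℕ} {p : ℝ} {w : E n → ℝ} {A : E n → E n → E n} {D Ω : Set (E n)}

/-- the truncation of `t` from above at `k` -/
noncomputable def up' (k : ℝ) (t : EReal) : ℝ := (min t (k : EReal)).toReal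

/-- the truncation of `t` from below at `-k` -/
noncomputable def lo' (k : ℝ) (t : EReal) : ℝ := (max t ((-k : ℝ) : EReal)).toReal

private theorem cmin (s t : ℝ) : min (s : EReal) (t : EReal) = ((min s t : ℝ) : EReal) :=
  (EReal.coe_strictMono.monotone.map_min).symm

private theorem cmax (s t : ℝ) : max (s : EReal) (t : EReal) = ((max s t : ℝ) : EReal) :=
  (EReal.coe_strictMono.monotone.map_max).symm

theorem up'_coe {k : ℝ} {t : EReal} (ht : t ≠ ⊥) : ((up' k t : ℝ) : EReal) = min t (k : EReal) := by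
  unfold up'
  apply EReal.coe_toReal
  · exact ne_top_of_le_ne_top (EReal.coe_ne_top k) (min_le_right _ _)
  · rcases min_choice t (k : EReal) with h | h <;> rw [h]
    · exact ht
    · exact EReal.coe_ne_bot k

theorem lo'_coe {k : ℝ} {t : EReal} (ht : t ≠ ⊤) :
    ((lo' k t : ℝ) : EReal) = max t ((-k : ℝ) : EReal) := by
  unfold lo'
  apply EReal.coe_toReal
  · rcases max_choice t ((-k : ℝ) : EReal) with h | h <;> rw [h]
    · exact ht
    · exact EReal.coe_ne_top _
  · exact ne_bot_of_le_ne_bot (EReal.coe_ne_bot (-k)) (le_max_right _ _)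

theorem Superharmonic.trunc (hp : 1 < p) (hw : PAdmissible p w) (hA : AOperator p w A)
    {u : E n → EReal} (hu : Superharmonic p w A Ω u) (k : ℝ) :
    IsSuperharmonic p w A Ω (fun x => up' k (u x)) := by
  constructor
  · intro x hx a ha
    have h1 : (a : EReal) < min (u x) (k : EReal) := by
      rw [← up'_coe (hu.ne_bot x hx)]
      exact EReal.coe_lt_coe_iff.2 ha
    have h2 := hu.lsc x hx a (lt_of_lt_of_le h1 (min_le_left _ _))
    filter_upwards [h2, self_mem_nhdsWithin] with y hy hyΩ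
    have h3 : (a : EReal) < ((up' k (u y) : ℝ) : EReal) := by
      rw [up'_coe (hu.ne_bot y hyΩ)]
      exact lt_min hy (lt_of_lt_of_le h1 (min_le_right _ _))
    exact EReal.coe_lt_coe_iff.1 h3
  · intro D h hD hc hh hb x hx
    have hb' : ∀ y ∈ frontier D, (h y : EReal) ≤ min (u y) (k : EReal) := by
      intro y hy
      have hyΩ : y ∈ Ω := hD.2.2 (frontier_subset_closure hy)
      rw [← up'_coe (hu.ne_bot y hyΩ)]
      exact EReal.coe_le_coe_iff.2 (hb y hy)
    have h1 := hu.comparison D h hD hc hh (fun y hy => (hb' y hy).trans (min_le_left _ _)) x hx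
    have h2 := harm_le hp hw hA hD.1 (hD.2.1.isBounded.subset subset_closure) hc hh (k := k)
      (fun y hy => EReal.coe_le_coe_iff.1 ((hb' y hy).trans (min_le_right _ _))) x hx
    have h3 : (h x : EReal) ≤ ((up' k (u x) : ℝ) : EReal) := by
      rw [up'_coe (hu.ne_bot x (hD.2.2 (subset_closure hx)))]
      exact le_min h1 (EReal.coe_le_coe_iff.2 h2)
    exact EReal.coe_le_coe_iff.1 h3

theorem Subharmonic.trunc (hp : 1 < p) (hw : PAdmissible p w) (hA : AOperator p w A)
    {v : E n → EReal} (hv : Subharmonic p w A Ω v) (k : ℝ) :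
    IsSubharmonic p w A Ω (fun x => lo' k (v x)) := by
  constructor
  · intro x hx a ha
    have h1 : max (v x) ((-k : ℝ) : EReal) < (a : EReal) := by
      rw [← lo'_coe (hv.ne_top x hx)]
      exact EReal.coe_lt_coe_iff.2 ha
    have h2 := hv.usc x hx a (lt_of_le_of_lt (le_max_left _ _) h1)
    filter_upwards [h2, self_mem_nhdsWithin] with y hy hyΩ
    have h3 : ((lo' k (v y) : ℝ) : EReal) < (a : EReal) := by
      rw [lo'_coe (hv.ne_top y hyΩ)]
      exact max_lt hy (lt_of_le_of_lt (le_max_right _ _) h1)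
    exact EReal.coe_lt_coe_iff.1 h3
  · intro D h hD hc hh hb x hx
    have hb' : ∀ y ∈ frontier D, max (v y) ((-k : ℝ) : EReal) ≤ (h y : EReal) := by
      intro y hy
      have hyΩ : y ∈ Ω := hD.2.2 (frontier_subset_closure hy)
      rw [← lo'_coe (hv.ne_top y hyΩ)]
      exact EReal.coe_le_coe_iff.2 (hb y hy)
    have h1 := hv.comparison D h hD hc hh (fun y hy => (le_max_left _ _).trans (hb' y hy)) x hx
    have h2 := harm_le hp hw hA hD.1 (hD.2.1.isBounded.subset subset_closure) hc.neg (hh.neg hA)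
      (k := k) (fun y hy => by
        have h3 := EReal.coe_le_coe_iff.1 ((le_max_right _ _).trans (hb' y hy))
        change -h y ≤ k
        linarith) x hx
    have h2' : -h x ≤ k := h2
    have h3 : ((lo' k (v x) : ℝ) : EReal) ≤ (h x : EReal) := by
      rw [lo'_coe (hv.ne_top x (hD.2.2 (subset_closure hx)))]
      exact max_le h1 (EReal.coe_le_coe_iff.2 (by linarith))
    exact EReal.coe_le_coe_iff.1 h3

/-- the truncations of `s ≥ -K` and `t ≤ K` at the level `K` satisfy the same strict inequalities -/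
theorem trunc_lt {K ε : ℝ} (hε : 0 < ε) (hK : 0 ≤ K) {s t : EReal}
    (hs : ((-K : ℝ) : EReal) ≤ s) (ht : t ≤ (K : EReal)) (h : t < s + (ε : EReal)) :
    lo' K t < up' K s + ε := by
  have hs0 : s ≠ ⊥ := ne_bot_of_le_ne_bot (EReal.coe_ne_bot _) hs
  have ht0 : t ≠ ⊤ := ne_top_of_le_ne_top (EReal.coe_ne_top _) ht
  have h1 := up'_coe (k := K) hs0
  have h2 := lo'_coe (k := K) ht0
  rcases eq_or_ne s ⊤ with hs1 | hs1
  · rw [hs1, min_eq_right le_top] at h1
    have h1' : up' K s = K := by rw [hs1]; exact_mod_cast h1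
    have h3 : ((lo' K t : ℝ) : EReal) ≤ (K : EReal) := by
      rw [h2]
      exact max_le ht (EReal.coe_le_coe_iff.2 (by linarith))
    have h4 := EReal.coe_le_coe_iff.1 h3
    linarith
  · lift s to ℝ using ⟨hs1, hs0⟩
    have hs' := EReal.coe_le_coe_iff.1 hs
    rw [cmin] at h1
    have h1' := EReal.coe_eq_coe_iff.1 h1
    rcases eq_or_ne t ⊥ with ht1 | ht1
    · rw [ht1, max_eq_right bot_le] at h2
      have h2' : lo' K t = -K := by rw [ht1]; exact_mod_cast h2
      rw [h2', h1']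
      rcases min_choice s K with h5 | h5 <;> rw [h5] <;> linarith
    · lift t to ℝ using ⟨ht0, ht1⟩
      have ht' := EReal.coe_le_coe_iff.1 ht
      rw [cmax] at h2
      have h2' := EReal.coe_eq_coe_iff.1 h2
      rw [← EReal.coe_add] at h
      have h' := EReal.coe_lt_coe_iff.1 h
      rw [h1', h2']
      rcases min_choice s K with h5 | h5 <;> rcases max_choice t (-K) with h6 | h6 <;>
        rw [h5, h6] <;> linarith

theorem lt_trunc {K ε : ℝ} (hε : 0 < ε) {s t : EReal}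
    (hs : ((-K : ℝ) : EReal) ≤ s) (ht : t ≤ (K : EReal)) (h : s + (ε : EReal) < t) :
    up' K s + ε < lo' K t := by
  have hs0 : s ≠ ⊥ := ne_bot_of_le_ne_bot (EReal.coe_ne_bot _) hs
  have ht0 : t ≠ ⊤ := ne_top_of_le_ne_top (EReal.coe_ne_top _) ht
  have h1 := up'_coe (k := K) hs0
  have h2 := lo'_coe (k := K) ht0
  have hs1 : s ≠ ⊤ := by
    rintro rfl
    rw [EReal.top_add_coe] at h
    exact not_top_lt h
  lift s to ℝ using ⟨hs1, hs0⟩
  rw [← EReal.coe_add] at h
  have ht1 : t ≠ ⊥ := (lt_of_le_of_lt bot_le h).ne'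
  lift t to ℝ using ⟨ht0, ht1⟩
  have hs' := EReal.coe_le_coe_iff.1 hs
  have ht' := EReal.coe_le_coe_iff.1 ht
  have h' := EReal.coe_lt_coe_iff.1 h
  rw [cmin] at h1
  rw [cmax] at h2
  have h1' := EReal.coe_eq_coe_iff.1 h1
  have h2' := EReal.coe_eq_coe_iff.1 h2
  rw [h1', h2', min_eq_left (by linarith), max_eq_left (by linarith)]
  exact h'

theorem abs_up' {K : ℝ} (hK : 0 ≤ K) {s : EReal} (hs : ((-K : ℝ) : EReal) ≤ s) :
    |up' K s| ≤ K := by
  have hs0 : s ≠ ⊥ := ne_bot_of_le_ne_bot (EReal.coe_ne_bot _) hs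
  have h1 := up'_coe (k := K) hs0
  rw [abs_le]
  constructor
  · apply EReal.coe_le_coe_iff.1
    rw [h1]
    exact le_min hs (EReal.coe_le_coe_iff.2 (by linarith))
  · apply EReal.coe_le_coe_iff.1
    rw [h1]
    exact min_le_right _ _

theorem abs_lo' {K : ℝ} (hK : 0 ≤ K) {t : EReal} (ht : t ≤ (K : EReal)) : |lo' K t| ≤ K := by
  have ht0 : t ≠ ⊤ := ne_top_of_le_ne_top (EReal.coe_ne_top _) ht
  have h2 := lo'_coe (k := K) ht0
  rw [abs_le]
  constructor
  · apply EReal.coe_le_coe_iff.1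
    rw [h2]
    exact le_max_right _ _
  · apply EReal.coe_le_coe_iff.1
    rw [h2]
    exact max_le ht (EReal.coe_le_coe_iff.2 (by linarith))

/-- **Quantitative comparison principle** with one-sided bounds. -/
theorem quant_ext (hn : 1 ≤ n) (hp : 1 < p) (hw : PAdmissible p w) (hA : AOperator p w A)
    {R M ε : ℝ} (hR : 0 < R) (hε : 0 < ε) :
    ∃ C : ENNReal, C ≠ ⊤ ∧ ∀ (Ω S : Set (E n)) (u v : E n → EReal), IsOpen Ω → Ω ⊆ ball 0 R →
      Superharmonic p w A Ω u → Subharmonic p w A Ω v →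
      (∀ x ∈ Ω, ((-M : ℝ) : EReal) ≤ u x) → (∀ x ∈ Ω, v x ≤ (M : EReal)) →
      (∀ x ∈ frontier Ω \ S, ∀ ε' : ℝ, 0 < ε' → ∀ᶠ y in 𝓝[Ω] x, v y < u y + (ε' : EReal)) →
      wMeasure w {x | x ∈ Ω ∧ u x + (ε : EReal) < v x} ≤ C * relCap p (wMeasure w) Ω S := by
  obtain ⟨K, hK⟩ : ∃ K, K = max M 0 := ⟨_, rfl⟩
  have hK0 : 0 ≤ K := by rw [hK]; exact le_max_right _ _
  have hMK : M ≤ K := by rw [hK]; exact le_max_left _ _
  obtain ⟨C, hC, hq⟩ := quant (M := K) hn hp hw hA hR hε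
  refine ⟨C, hC, ?_⟩
  intro Ω S u v hΩ hΩR hu hv huM hvM hbd
  have huK : ∀ x ∈ Ω, ((-K : ℝ) : EReal) ≤ u x := fun x hx =>
    (EReal.coe_le_coe_iff.2 (by linarith)).trans (huM x hx)
  have hvK : ∀ x ∈ Ω, v x ≤ (K : EReal) := fun x hx =>
    (hvM x hx).trans (EReal.coe_le_coe_iff.2 hMK)
  have h1 := hq Ω S _ _ hΩ hΩR (hu.trunc hp hw hA K) (hv.trunc hp hw hA K)
    (fun x hx => abs_up' hK0 (huK x hx)) (fun x hx => abs_lo' hK0 (hvK x hx))
    (fun x hx ε' hε' => by
      filter_upwards [hbd x hx ε' hε', self_mem_nhdsWithin] with y hy hyΩ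
      exact trunc_lt hε' hK0 (huK y hyΩ) (hvK y hyΩ) hy)
  refine (measure_mono ?_).trans h1
  rintro x ⟨hx1, hx2⟩
  exact ⟨hx1, lt_trunc hε (huK x hx1) (hvK x hx1) hx2⟩

/-- **The comparison principle** with one-sided bounds when the exceptional set has zero relative
capacity. -/
theorem comp_ext (hn : 1 ≤ n) (hp : 1 < p) (hw : PAdmissible p w) (hA : AOperator p w A)
    (hΩ : IsOpen Ω) (hb : Bornology.IsBounded Ω) {S : Set (E n)}
    (hcap : relCap p (wMeasure w) Ω S = 0) {u v : E n → EReal}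
    (hu : Superharmonic p w A Ω u) (hv : Subharmonic p w A Ω v) {M : ℝ}
    (huM : ∀ x ∈ Ω, ((-M : ℝ) : EReal) ≤ u x) (hvM : ∀ x ∈ Ω, v x ≤ (M : EReal))
    (hbd : ∀ x ∈ frontier Ω \ S, ∀ ε' : ℝ, 0 < ε' →
      ∀ᶠ y in 𝓝[Ω] x, v y < u y + (ε' : EReal)) :
    ∀ x ∈ Ω, v x ≤ u x := by
  obtain ⟨K, hK⟩ : ∃ K, K = max M 0 := ⟨_, rfl⟩
  have hK0 : 0 ≤ K := by rw [hK]; exact le_max_right _ _
  have hMK : M ≤ K := by rw [hK]; exact le_max_left _ _
  have huK : ∀ x ∈ Ω, ((-K : ℝ) : EReal) ≤ u x := fun x hx =>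
    (EReal.coe_le_coe_iff.2 (by linarith)).trans (huM x hx)
  have hvK : ∀ x ∈ Ω, v x ≤ (K : EReal) := fun x hx =>
    (hvM x hx).trans (EReal.coe_le_coe_iff.2 hMK)
  have h1 := comp_rel hn hp hw hA hΩ hb hcap (hu.trunc hp hw hA K) (hv.trunc hp hw hA K)
    (fun x hx => abs_up' hK0 (huK x hx)) (fun x hx => abs_lo' hK0 (hvK x hx))
    (fun x hx ε' hε' => by
      filter_upwards [hbd x hx ε' hε', self_mem_nhdsWithin] with y hy hyΩ
      exact trunc_lt hε' hK0 (huK y hyΩ) (hvK y hyΩ) hy)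
  intro x hx
  have h2 : ((lo' K (v x) : ℝ) : EReal) ≤ ((up' K (u x) : ℝ) : EReal) :=
    EReal.coe_le_coe_iff.2 (h1 x hx)
  rw [up'_coe (hu.ne_bot x hx), lo'_coe (hv.ne_top x hx)] at h2
  exact (le_max_left _ _).trans (h2.trans (min_le_left _ _))

end Pool.Agent.H57.RC
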