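import Pool.Agent.H57.RC.Unif
import Pool.Agent.H57.RC.Defs

/-!
# The quantitative comparison principle

MP_fb6cbc_an. `exists_rho` and `level_rel` follow `Pool/Agent/H40/NQComp.lean` (helper40), with the
relative capacity and the weaker boundary condition `limsup (v - u) ≤ 0`.
-/

set_option autoImplicit false

open MeasureTheory Filter Topology Metric
open scoped ContDiff RealInnerProductSpace
open Pool.Agent.H40.NP

namespace Pool.Agent.H57.RC

variable {n : ℕ} {p : ℝ} {w : E n → ℝ} {A : E n → E n → E n} {D Ω : Set (E n)}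

/-- near the boundary, off a neighbourhood of the exceptional set -/
private theorem exists_rho (hΩ : IsOpen Ω) (hb : Bornology.IsBounded Ω) (hne : Ωᶜ.Nonempty)
    {S W : Set (E n)} (hW : IsOpen W) (hSW : S ⊆ W) {u v : E n → ℝ} {ε : ℝ}
    (hbd : ∀ x ∈ frontier Ω \ S, ∀ᶠ y in 𝓝[Ω] x, v y < u y + ε) {ρ0 : ℝ}
    (hρ0 : 0 < ρ0) :
    ∃ ρ : ℝ, 0 < ρ ∧ ρ ≤ ρ0 ∧ ∀ y ∈ frontier (inner' Ω ρ), y ∉ W → v y < u y + ε := by
  by_contra hcon
  push Not at hcon
  have hk : ∀ k : ℕ, 0 < ρ0 * (1 / ((k:ℝ) + 1)) := fun k => by positivity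
  have hk1 : ∀ k : ℕ, ρ0 * (1 / ((k:ℝ) + 1)) ≤ ρ0 := fun k => by
    apply mul_le_of_le_one_right hρ0.le
    rw [div_le_one (by positivity)]
    linarith [(Nat.cast_nonneg k : (0:ℝ) ≤ k)]
  choose y hy1 hy2 hy3 using fun k => hcon _ (hk k) (hk1 k)
  have hyΩ : ∀ k, y k ∈ Ω := fun k =>
    (inner_comp hb (hk k)).2.2 (frontier_subset_closure (hy1 k))
  obtain ⟨x, hx, ns, hns, hlim⟩ := hb.isCompact_closure.tendsto_subseq
    (fun k => subset_closure (hyΩ k))
  have hdist : infDist x Ωᶜ = 0 := by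
    have h1 : Tendsto (fun k => infDist (y (ns k)) Ωᶜ) atTop (𝓝 (infDist x Ωᶜ)) :=
      ((continuous_infDist_pt _).tendsto x).comp hlim
    have h2 : Tendsto (fun k : ℕ => ρ0 * (1 / ((k:ℝ) + 1))) atTop (𝓝 (ρ0 * 0)) :=
      tendsto_one_div_add_atTop_nhds_zero_nat.const_mul ρ0
    rw [mul_zero] at h2
    have h3 := h2.comp hns.tendsto_atTop
    refine tendsto_nhds_unique h1 (h3.congr fun k => ?_)
    exact (inner_frontier (hy1 (ns k))).symm
  have hxΩ : x ∉ Ω := by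
    have h1 : x ∈ closure Ωᶜ := by
      rw [mem_closure_iff_infDist_zero hne]; exact hdist
    rw [hΩ.isClosed_compl.closure_eq] at h1
    exact h1
  have hxf : x ∈ frontier Ω := by
    rw [hΩ.frontier_eq]; exact ⟨hx, hxΩ⟩
  have hxW : x ∉ W := by
    have h1 : x ∈ Wᶜ := hW.isClosed_compl.mem_of_tendsto hlim
      (Eventually.of_forall fun k => hy2 (ns k))
    exact h1
  have h2 := hbd x ⟨hxf, fun h => hxW (hSW h)⟩
  have h3 : Tendsto (fun k => y (ns k)) atTop (𝓝[Ω] x) :=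
    tendsto_nhdsWithin_iff.2 ⟨hlim, Eventually.of_forall fun k => hyΩ (ns k)⟩
  obtain ⟨k, hk⟩ := (h3.eventually h2).exists
  exact absurd hk (not_lt.2 (hy3 (ns k)))

private theorem level_rel (hp : 1 < p) (hw : PAdmissible p w) (hA : AOperator p w A)
    {R K l ε h : ℝ} (hR : 0 < R) (hK : 0 ≤ K) (hl : 0 < l) (hlK : l * (K + 2) ≤ 1)
    (hh : 0 < h) (hε : 0 < ε) :
    ∃ C : ENNReal, C ≠ 0 ∧ C ≠ ⊤ ∧ ∀ (Ω S : Set (E n)) (u v : E n → ℝ), IsOpen Ω →
      Ω ⊆ ball 0 R → Ωᶜ.Nonempty → IsSuperharmonic p w A Ω u → IsSubharmonic p w A Ω v →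
      (∀ x ∈ Ω, |u x| ≤ K) → (∀ x ∈ Ω, |v x| ≤ K) →
      (∀ x ∈ frontier Ω \ S, ∀ ε' : ℝ, 0 < ε' → ∀ᶠ y in 𝓝[Ω] x, v y < u y + ε') →
      ∀ ρ0 : ℝ, 0 < ρ0 → wMeasure w {x | x ∈ inner' Ω ρ0 ∧
        2 * h ≤ FF l (v x) + HH l (ε + 2 * l * (K + 2) ^ 2) (u x)} ≤
          C * relCap p (wMeasure w) Ω S := by
  obtain ⟨c, hc⟩ : ∃ c, c = ε + 2 * l * (K + 2) ^ 2 := ⟨_, rfl⟩
  rw [← hc]
  obtain ⟨C, hC, hest⟩ := main_est_rel (R := R) (K := K + 2) hp hw hA hR hl hh c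
  refine ⟨C + 1, by simp, ENNReal.add_ne_top.2 ⟨hC, ENNReal.one_ne_top⟩, ?_⟩
  intro Ω S u v hΩ hΩR hne hu hv huK hvK hbd ρ0 hρ0
  have hb : Bornology.IsBounded Ω := isBounded_ball.subset hΩR
  have key : ∀ δ ∈ {c : ENNReal | ∃ (φ : E n → ℝ) (Φ : E n → E n), MemH p (wMeasure w) Ω φ Φ ∧
      (∃ W : Set (E n), IsOpen W ∧ S ⊆ W ∧ ∀ x ∈ W ∩ Ω, φ x = 1) ∧
      c = ∫⁻ x in Ω, (ENNReal.ofReal (|φ x| ^ p) + ENNReal.ofReal (‖Φ x‖ ^ p)) ∂(wMeasure w)},
      wMeasure w {x | x ∈ inner' Ω ρ0 ∧ 2 * h ≤ FF l (v x) + HH l c (u x)} ≤ C * δ := by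
    rintro _ ⟨φ, Φ, hφ, ⟨W, hWo, hSW, hφ1⟩, rfl⟩
    obtain ⟨ρ, hρ, hρρ0, hρW⟩ := exists_rho hΩ hb hne hWo hSW
      (fun x hx => hbd x hx (ε / 2) (half_pos hε)) hρ0
    have hD := inner_comp (Ω := Ω) hb hρ
    have hext : ∀ x ∈ frontier (inner' Ω ρ), ExtDens w (inner' Ω ρ) x := fun x hx =>
      inner_ext hw hΩ hne hρ hx
    obtain ⟨D, hDdef⟩ : ∃ D, D = inner' Ω ρ := ⟨_, rfl⟩
    rw [← hDdef] at hD hext hρW
    have hDsub : inner' Ω ρ0 ⊆ D := by
      rw [hDdef]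
      intro x hx
      have hx' : ρ0 < infDist x Ωᶜ := hx
      exact lt_of_le_of_lt hρρ0 hx'
    obtain ⟨f, F, Fg, hf1, hf2, hf3, hF1, hF2, hF3, hF4, hF5⟩ :=
      approx_super hp hw hA hu hK huK hD hext
    obtain ⟨f', F', Fg', hf1', hf2', hf3', hF1', hF2', hF3', hF4', hF5'⟩ :=
      approx_super hp hw hA (hv.neg hA) hK (fun x hx => by rw [abs_neg]; exact hvK x hx) hD hext
    -- Dini on the frontier
    have hFc : IsCompact (frontier D \ W) := by
      have h2 : IsCompact (frontier D) :=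
        hD.2.1.of_isClosed_subset isClosed_frontier frontier_subset_closure
      exact h2.diff hWo
    obtain ⟨N, hN⟩ := dini_lt hFc (q := fun i x => f i x + f' i x)
      (fun i => (hf1 i).add (hf1' i)) (fun i j hij x => add_le_add (hf2 i j hij x)
        (hf2' i j hij x)) (a := -(ε / 2)) (fun x hx => by
        have hxD : x ∈ closure D := frontier_subset_closure hx.1
        have h2 := (hf3 x hxD).add (hf3' x hxD)
        have h3 := hρW x hx.1 hx.2
        exact (h2.eventually (lt_mem_nhds (show -(ε / 2) < u x + -v x by linarith))).exists)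
    obtain ⟨i, hiN, hi4⟩ : ∃ i : ℕ, N ≤ i ∧ 4 / ((i:ℝ) + 1) < ε / 2 := by
      have h2 : Tendsto (fun i : ℕ => 4 / ((i:ℝ) + 1)) atTop (𝓝 0) := by
        have := (tendsto_one_div_add_atTop_nhds_zero_nat (𝕜 := ℝ)).const_mul 4
        rw [mul_zero] at this
        exact this.congr fun k => by ring
      obtain ⟨i, h3, h4⟩ := ((eventually_ge_atTop N).and
        (h2.eventually (gt_mem_nhds (half_pos hε)))).exists
      exact ⟨i, h3, h4⟩
    have hfront : ∀ x ∈ frontier D, x ∉ W → -F' i x - F i x < ε := by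
      intro x hx hxW
      have hxD : x ∈ closure D := frontier_subset_closure hx
      have h2 := hN i hiN x ⟨hx, hxW⟩
      have h3 := hF2 i x hxD
      have h4 := hF2' i x hxD
      have e : (4:ℝ) / ((i:ℝ) + 1) = 2 / ((i:ℝ) + 1) + 2 / ((i:ℝ) + 1) := by ring
      linarith
    have hK2 : ∀ x ∈ D, |-F' i x| ≤ K + 2 := fun x _ => by rw [abs_neg]; exact hF4' i x
    have hmain := hest D Ω hD.1 hΩ (subset_closure.trans hD.2.2)
      ((subset_closure.trans hD.2.2).trans hΩR) (F i)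
      (fun x => -F' i x) (Fg i) (fun x => -Fg' i x)
      ((hF5 i).isSupersolution hp hw hD.1) ((hF5' i).neg_isSubsolution hp hw hA hD.1)
      (fun x _ => hF4 i x) hK2 φ Φ hφ (by
        intro x hx
        by_cases hxW : x ∈ W
        · have : ∀ᶠ y in 𝓝[D] x, y ∈ W := mem_nhdsWithin_of_mem_nhds (hWo.mem_nhds hxW)
          filter_upwards [this, self_mem_nhdsWithin] with y hy hyD
          rw [hφ1 y ⟨hy, subset_closure.trans hD.2.2 hyD⟩, nf_zero le_rfl, mul_zero]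
        · have h2 := hfront x hx hxW
          have h3 : Continuous fun y => -F' i y - F i y := (hF1' i).neg.sub (hF1 i)
          have h4 : ∀ᶠ y in 𝓝 x, -F' i y - F i y < ε :=
            (h3.tendsto x).eventually (gt_mem_nhds h2)
          filter_upwards [mem_nhdsWithin_of_mem_nhds h4] with y hy
          rw [gf_zero hh, zero_mul]
          have h5 := FF_le (t := -F' i y) (K := K + 2) hl hlK (by rw [abs_neg]; exact hF4' i y)
          have h6 := HH_le (c := c) hl hlK (hF4 i y)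
          have hy' : -F' i y - F i y < ε := hy
          linarith)
    refine (measure_mono ?_).trans hmain
    rintro x ⟨hx1, hx2⟩
    have hxD : x ∈ D := hDsub hx1
    refine ⟨hxD, ?_⟩
    have h2 := hF3 i x (subset_closure hxD)
    have h3 := hF3' i x (subset_closure hxD)
    have h4 := FF_mono (l := l) hl (show v x ≤ -F' i x by linarith)
    have h5 := HH_anti (l := l) (c := c) hl h2
    linarith
  have h1 : wMeasure w {x | x ∈ inner' Ω ρ0 ∧ 2 * h ≤ FF l (v x) + HH l c (u x)} / (C + 1) ≤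
      relCap p (wMeasure w) Ω S := by
    refine le_sInf fun δ hδ => ?_
    apply ENNReal.div_le_of_le_mul'
    exact (key δ hδ).trans (mul_le_mul_left le_self_add _)
  rw [ENNReal.div_le_iff_le_mul (Or.inl (by simp))
    (Or.inl (ENNReal.add_ne_top.2 ⟨hC, ENNReal.one_ne_top⟩))] at h1
  exact h1.trans (le_of_eq (mul_comm _ _))

/-- **Quantitative comparison principle**: the measure of the set where the comparison fails by
more than `ε` is at most a constant times the relative capacity of the exceptional set. -/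
theorem quant (hn : 1 ≤ n) (hp : 1 < p) (hw : PAdmissible p w) (hA : AOperator p w A)
    {R M ε : ℝ} (hR : 0 < R) (hε : 0 < ε) :
    ∃ C : ENNReal, C ≠ ⊤ ∧ ∀ (Ω S : Set (E n)) (u v : E n → ℝ), IsOpen Ω → Ω ⊆ ball 0 R →
      IsSuperharmonic p w A Ω u → IsSubharmonic p w A Ω v →
      (∀ x ∈ Ω, |u x| ≤ M) → (∀ x ∈ Ω, |v x| ≤ M) →
      (∀ x ∈ frontier Ω \ S, ∀ ε' : ℝ, 0 < ε' → ∀ᶠ y in 𝓝[Ω] x, v y < u y + ε') →
      wMeasure w {x | x ∈ Ω ∧ u x + ε < v x} ≤ C * relCap p (wMeasure w) Ω S := by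
  obtain ⟨K, hK⟩ : ∃ K, K = max M 0 := ⟨_, rfl⟩
  have hK0 : 0 ≤ K := by rw [hK]; exact le_max_right _ _
  have hMK : M ≤ K := by rw [hK]; exact le_max_left _ _
  obtain ⟨l, hl⟩ : ∃ l, l = min (1 / (K + 2)) (ε / (16 * (K + 2) ^ 2)) := ⟨_, rfl⟩
  have hK2 : 0 < K + 2 := by linarith
  have hl0 : 0 < l := by rw [hl]; exact lt_min (by positivity) (by positivity)
  have hl1 : l * (K + 2) ≤ 1 := by
    have h1 : l ≤ 1 / (K + 2) := by rw [hl]; exact min_le_left _ _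
    rwa [le_div_iff₀ hK2] at h1
  have hl2 : 2 * l * (K + 2) ^ 2 ≤ ε / 8 := by
    have h1 : l ≤ ε / (16 * (K + 2) ^ 2) := by rw [hl]; exact min_le_right _ _
    rw [le_div_iff₀ (by positivity)] at h1
    linarith
  obtain ⟨C, _, hC, hest⟩ := level_rel (R := R) (K := K) (l := l) (ε := ε / 8) (h := ε / 4)
    hp hw hA hR hK0 hl0 hl1 (by positivity) (by positivity)
  refine ⟨C, hC, ?_⟩
  intro Ω S u v hΩ hΩR hu hv huM hvM hbd
  have hb : Bornology.IsBounded Ω := isBounded_ball.subset hΩR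
  have hne : Ωᶜ.Nonempty := by
    by_contra hcon
    rw [Set.not_nonempty_iff_eq_empty, Set.compl_empty_iff] at hcon
    rw [hcon] at hb
    have : Nonempty (Fin n) := ⟨⟨0, hn⟩⟩
    have : Nontrivial (E n) := inferInstance
    exact NormedSpace.unbounded_univ ℝ (E n) hb
  have h1 := hest Ω S u v hΩ hΩR hne hu hv (fun x hx => (huM x hx).trans hMK)
    (fun x hx => (hvM x hx).trans hMK) hbd
  let T : ℕ → Set (E n) := fun m => {x | x ∈ inner' Ω (1 / ((m:ℝ) + 1)) ∧ u x + ε < v x}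
  have hTmono : Monotone T := by
    intro a b hab x hx
    refine ⟨?_, hx.2⟩
    have h2 : (1:ℝ) / ((a:ℝ) + 1) < infDist x Ωᶜ := hx.1
    have h3 : (1:ℝ) / ((b:ℝ) + 1) ≤ 1 / ((a:ℝ) + 1) := by
      apply one_div_le_one_div_of_le (by positivity)
      have : (a:ℝ) ≤ b := by exact_mod_cast hab
      linarith
    exact lt_of_le_of_lt h3 h2
  have hTsub : {x | x ∈ Ω ∧ u x + ε < v x} ⊆ ⋃ m, T m := by
    rintro x ⟨hx1, hx2⟩
    have hpos : 0 < infDist x Ωᶜ :=
      (hΩ.isClosed_compl.notMem_iff_infDist_pos hne).1 (fun h => h hx1)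
    obtain ⟨m, hm⟩ := exists_nat_one_div_lt hpos
    exact Set.mem_iUnion.2 ⟨m, hm, hx2⟩
  refine (measure_mono hTsub).trans ?_
  rw [hTmono.measure_iUnion]
  refine iSup_le fun m => ?_
  refine (measure_mono ?_).trans (h1 (1 / ((m:ℝ) + 1)) (by positivity))
  rintro x ⟨hx1, hx2⟩
  refine ⟨hx1, ?_⟩
  have h3 := FF_ge (t := v x) hl0
  have h4 := HH_ge (c := ε / 8 + 2 * l * (K + 2) ^ 2) (t := u x) hl0
  linarith

end Pool.Agent.H57.RC
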